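import Mathlib.Analysis.Fourier.AddCircle

/-!
# The block `ℓ²` bound for lacunary coefficients fails

For a suitable increasing sequence `r` with `0 < r k < 2 ^ (k - 10)` and `r k → ∞`, let `A` be the set of
the integers at distance at most `r k` from `2 ^ k` for some `k`, and let `λ 0 = 0` and `λ (s + 1)` be the
least `m` with `2 ^ λ s ≤ r m`.  For every `S` there is a trigonometric polynomial `f` with spectrum in
`A` and `|f| ≤ 1` all of whose first `S` block sums `∑_{λ s ≤ k < λ (s + 1)} |f^(2 ^ k)|` are at least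
`1 / 4`.  So the sum of the squares of the block sums (or of any other powers) is not bounded by a
constant times a power of the sup norm of `f`.

The construction.  Put `f_0 = 0` and `f_{s+1} = f_s + (1 - |f_s|²) / 2 · E_s`, where `E_s` is the mean of
the `K_s` functions `e(2 ^ k t)`, `λ s ≤ k < λ s + K_s`.  As `x + (1 - x²) / 2 ≤ 1` for `0 ≤ x ≤ 1`, we
have `|f_s| ≤ 1` for all `s`; and the `L²` norm of `f_s` is small, as the new term has norm at most
`K_s ^ (-1/2) / 2`, so `(1 - |f_s|²) / 2` has a mean value near `1 / 2`, which is the new block sum.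
-/

set_option autoImplicit false

open MeasureTheory Filter AddCircle
open scoped BigOperators ENNReal

namespace Pool.Agent.Results.MP_b4ed43_an.BlockSumsUnbounded

/-- The `n`-th Fourier coefficient of a continuous function on the circle `ℝ / ℤ`. -/
noncomputable def coeff (f : C(UnitAddCircle, ℂ)) (n : ℤ) : ℂ :=
  ∫ t in (-(1 / 2) : ℝ)..(1 / 2), f (t : UnitAddCircle) *
    Complex.exp (-2 * Real.pi * Complex.I * n * t)

/-- The sequences of the problem: strictly increasing, `0 < r k < 2 ^ (k - 10)`, tending to infinity. -/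
def Admissible (r : ℕ → ℝ) : Prop :=
  StrictMono r ∧ (∀ k, 0 < r k ∧ r k < (2 : ℝ) ^ ((k : ℤ) - 10)) ∧ Tendsto r atTop atTop

/-- The indices `λ s`: `λ 0 = 0` and `λ (s + 1)` is the least `m` with `2 ^ λ s ≤ r m`. -/
noncomputable def lam (r : ℕ → ℝ) : ℕ → ℕ
  | 0 => 0
  | s + 1 => sInf {m : ℕ | (2 : ℝ) ^ lam r s ≤ r m}

/-- The Fourier coefficients of `f` vanish outside the set `A` of the integers at distance at most
`r k` from `2 ^ k` for some `k`. -/
def SpectrumIn (r : ℕ → ℝ) (f : C(UnitAddCircle, ℂ)) : Prop :=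
  ∀ n : ℤ, (¬ ∃ k : ℕ, (2 : ℝ) ^ k - r k ≤ n ∧ (n : ℝ) ≤ 2 ^ k + r k) → coeff f n = 0

/-- The sum of the absolute values of the coefficients at the powers of two in the block `s`. -/
noncomputable def blockSum (r : ℕ → ℝ) (f : C(UnitAddCircle, ℂ)) (s : ℕ) : ℝ :=
  ∑ k ∈ Finset.Ico (lam r s) (lam r (s + 1)), ‖coeff f (2 ^ k)‖

/-- The sum of the squares of the block sums, as an element of `[0, ∞]`. -/
noncomputable def Phi (r : ℕ → ℝ) (f : C(UnitAddCircle, ℂ)) : ℝ≥0∞ :=
  ∑' s, ENNReal.ofReal (blockSum r f s ^ 2)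

/-! ### Fourier coefficients -/

theorem coeff_eq (f : C(UnitAddCircle, ℂ)) (n : ℤ) : coeff f n = fourierCoeff f n := by
  rw [fourierCoeff_eq_intervalIntegral f n (-(1 / 2)), coeff]
  norm_num
  apply intervalIntegral.integral_congr
  intro t _
  simp only []
  rw [mul_comm]
  congr 1
  rw [← Complex.exp_conj]
  congr 1
  have h2 : (starRingEnd ℂ) 2 = 2 := Complex.conj_ofNat 2
  simp [h2]

theorem integ (f : C(UnitAddCircle, ℂ)) : Integrable f (haarAddCircle (T := (1 : ℝ))) :=
  f.continuous.integrable_of_hasCompactSupport (HasCompactSupport.of_compactSpace _)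

/-- The coefficient as a linear map. -/
noncomputable def cL (n : ℤ) : C(UnitAddCircle, ℂ) →ₗ[ℂ] ℂ where
  toFun f := fourierCoeff f n
  map_add' f g := by
    have := fourierCoeff.add (integ f) (integ g)
    exact congrFun this n
  map_smul' c f := fourierCoeff.const_smul f c n

theorem cL_mul (f : C(UnitAddCircle, ℂ)) (m n : ℤ) : cL n (f * fourier m) = cL (n - m) f := by
  show fourierCoeff _ _ = fourierCoeff _ _
  unfold fourierCoeff
  congr 1
  funext t
  rw [show -(n - m) = -n + m by ring, fourier_add]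
  simp only [ContinuousMap.mul_apply, smul_eq_mul]
  ring

theorem cL_fourier (m n : ℤ) : cL n (fourier m : C(UnitAddCircle, ℂ)) = if n = m then 1 else 0 := by
  have h := (orthonormal_iff_ite.1 (orthonormal_fourier (T := (1 : ℝ)))) n m
  rw [ContinuousMap.inner_toLp (haarAddCircle (T := (1 : ℝ))) (fourier n) (fourier m)] at h
  rw [← h]
  show fourierCoeff _ _ = _
  unfold fourierCoeff
  congr 1
  funext t
  rw [fourier_neg]
  simp only [smul_eq_mul]
  ring

theorem cL_norm (f : C(UnitAddCircle, ℂ)) (n : ℤ) {B : ℝ} (h : ∀ t, ‖f t‖ ≤ B) : ‖cL n f‖ ≤ B := by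
  show ‖∫ t, fourier (-n) t • f t ∂haarAddCircle‖ ≤ B
  refine (norm_integral_le_of_norm_le_const (C := B) (Filter.Eventually.of_forall fun t => ?_)).trans ?_
  · rw [norm_smul]
    have : ‖fourier (-n) t‖ = 1 := Circle.norm_coe _
    rw [this, one_mul]
    exact h t
  · simp

/-- The trigonometric polynomials of degree at most `d`. -/
noncomputable def TP (d : ℤ) : Submodule ℂ C(UnitAddCircle, ℂ) :=
  Submodule.span ℂ ((fun n : ℤ => (fourier n : C(UnitAddCircle, ℂ))) '' {n | |n| ≤ d})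

theorem TP_mono {d e : ℤ} (h : d ≤ e) : TP d ≤ TP e :=
  Submodule.span_mono (Set.image_mono fun _ hn => le_trans hn h)

theorem four_mem {n d : ℤ} (h : |n| ≤ d) : (fourier n : C(UnitAddCircle, ℂ)) ∈ TP d :=
  Submodule.subset_span ⟨n, h, rfl⟩

theorem TP_mul {d e : ℤ} {f g : C(UnitAddCircle, ℂ)} (hf : f ∈ TP d) (hg : g ∈ TP e) :
    f * g ∈ TP (d + e) := by
  have h := Submodule.mul_mem_mul hf hg
  rw [TP, TP, Submodule.span_mul_span] at h
  refine Submodule.span_le.2 ?_ h
  rintro _ ⟨_, ⟨m, hm, rfl⟩, _, ⟨n, hn, rfl⟩, rfl⟩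
  have e1 : (fourier m : C(UnitAddCircle, ℂ)) * fourier n = fourier (m + n) := by
    ext t
    exact fourier_add.symm
  show (fourier m : C(UnitAddCircle, ℂ)) * fourier n ∈ TP (d + e)
  rw [e1]
  exact four_mem ((abs_add_le m n).trans (add_le_add hm hn))

theorem TP_star {d : ℤ} {f : C(UnitAddCircle, ℂ)} (hf : f ∈ TP d) : star f ∈ TP d := by
  unfold TP at hf
  induction hf using Submodule.span_induction with
  | mem x hx =>
    obtain ⟨n, hn, rfl⟩ := hx
    have e1 : star (fourier n : C(UnitAddCircle, ℂ)) = fourier (-n) := by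
      ext t
      rw [fourier_neg]
      rfl
    show star (fourier n : C(UnitAddCircle, ℂ)) ∈ TP d
    rw [e1]
    exact four_mem (by rw [abs_neg]; exact hn)
  | zero => rw [star_zero]; exact Submodule.zero_mem _
  | add x y _ _ hx hy => rw [star_add]; exact Submodule.add_mem _ hx hy
  | smul a x _ hx => rw [star_smul]; exact Submodule.smul_mem _ _ hx

theorem TP_coeff {d : ℤ} {f : C(UnitAddCircle, ℂ)} (hf : f ∈ TP d) {n : ℤ} (hn : d < |n|) :
    cL n f = 0 := by
  unfold TP at hf
  induction hf using Submodule.span_induction with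
  | mem x hx =>
    obtain ⟨m, hm, rfl⟩ := hx
    show cL n (fourier m : C(UnitAddCircle, ℂ)) = 0
    rw [cL_fourier, if_neg]
    rintro rfl
    exact absurd hm (not_le.2 hn)
  | zero => exact map_zero _
  | add x y _ _ hx hy => rw [map_add, hx, hy, add_zero]
  | smul a x _ hx => rw [map_smul, hx, smul_zero]

/-! ### The construction -/

/-- the number of the frequencies used in the block `s` -/
def K (s : ℕ) : ℕ := 2 ^ (s + 5)

/-- the ends of the blocks -/
def La : ℕ → ℕ
  | 0 => 0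
  | s + 1 => La s + K s + 13

/-- the degrees -/
def d : ℕ → ℤ
  | 0 => 0
  | s + 1 => 2 ^ (La s + K s)

/-- the mean of the exponentials of the block `s` -/
noncomputable def E (s : ℕ) : C(UnitAddCircle, ℂ) :=
  ((K s : ℂ)⁻¹) • ∑ k ∈ Finset.Ico (La s) (La s + K s), (fourier (2 ^ k) : C(UnitAddCircle, ℂ))

/-- the functions `f_s` -/
noncomputable def P : ℕ → C(UnitAddCircle, ℂ)
  | 0 => 0
  | s + 1 => P s + ((2 : ℂ)⁻¹ • (1 - P s * star (P s))) * E s

/-- the factors `(1 - |f_s|²) / 2` -/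
noncomputable def G (s : ℕ) : C(UnitAddCircle, ℂ) := (2 : ℂ)⁻¹ • (1 - P s * star (P s))

theorem P_succ (s : ℕ) : P (s + 1) = P s + G s * E s := rfl

theorem K_pos (s : ℕ) : 0 < K s := by unfold K; positivity

theorem Kc (s : ℕ) : (K s : ℂ) ≠ 0 := Nat.cast_ne_zero.2 (K_pos s).ne'

theorem d_nonneg (s : ℕ) : 0 ≤ d s := by
  cases s with
  | zero => exact le_refl _
  | succ s => unfold d; positivity

theorem hd (s : ℕ) : 16 * d s ≤ 2 ^ La s := by
  cases s with
  | zero => norm_num [d, La]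
  | succ s =>
    show 16 * (2 : ℤ) ^ (La s + K s) ≤ 2 ^ (La s + K s + 13)
    rw [pow_add 2 (La s + K s) 13]
    nlinarith [pow_pos (show (0 : ℤ) < 2 by norm_num) (La s + K s)]

theorem pow_le {k s : ℕ} (h : La s ≤ k) : (2 : ℤ) ^ La s ≤ 2 ^ k :=
  pow_le_pow_right₀ (by norm_num) h

theorem sep {a k l : ℕ} (hk : a ≤ k) (hl : a ≤ l) (h : k ≠ l) : (2 : ℤ) ^ a ≤ |2 ^ l - 2 ^ k| := by
  have key : ∀ {k l : ℕ}, a ≤ k → k < l → (2 : ℤ) ^ a ≤ 2 ^ l - 2 ^ k := by
    intro k l hk h
    have h1 : (2 : ℤ) ^ (k + 1) ≤ 2 ^ l := pow_le_pow_right₀ (by norm_num) h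
    have h2 : (2 : ℤ) ^ a ≤ 2 ^ k := pow_le_pow_right₀ (by norm_num) hk
    rw [pow_succ] at h1
    linarith
  rcases lt_or_gt_of_ne h with h | h
  · exact (key hk h).trans (le_abs_self _)
  · rw [abs_sub_comm]
    exact (key hl h).trans (le_abs_self _)

/-! ### Supports -/

theorem one_eq : (1 : C(UnitAddCircle, ℂ)) = fourier 0 := by
  ext t
  rw [fourier_zero]
  rfl

theorem one_mem {e : ℤ} (h : 0 ≤ e) : (1 : C(UnitAddCircle, ℂ)) ∈ TP e := by
  rw [one_eq]
  exact four_mem (by simpa using h)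

theorem G_mem {s : ℕ} (h : P s ∈ TP (d s)) : G s ∈ TP (2 * d s) := by
  have h1 := TP_mul h (TP_star h)
  rw [← two_mul] at h1
  exact Submodule.smul_mem _ _ (Submodule.sub_mem _ (one_mem (by linarith [d_nonneg s])) h1)

theorem E_mem (s : ℕ) : E s ∈ TP (2 ^ (La s + K s - 1)) := by
  refine Submodule.smul_mem _ _ (Submodule.sum_mem _ fun k hk => four_mem ?_)
  rw [Finset.mem_Ico] at hk
  rw [abs_of_pos (by positivity)]
  exact pow_le_pow_right₀ (by norm_num) (by omega)

theorem P_mem (s : ℕ) : P s ∈ TP (d s) := by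
  induction s with
  | zero => exact Submodule.zero_mem _
  | succ s ih =>
    have h1 := TP_mul (G_mem ih) (E_mem s)
    have hK := K_pos s
    have h2 : (2 : ℤ) ^ (La s + K s) = 2 * 2 ^ (La s + K s - 1) := by
      rw [← pow_succ']
      congr 1
      omega
    have h3 : (2 : ℤ) ^ La s ≤ 2 ^ (La s + K s - 1) := pow_le (by omega)
    have h4 := hd s
    have h5 := d_nonneg s
    rw [P_succ]
    refine Submodule.add_mem _ (TP_mono ?_ ih) (TP_mono ?_ h1)
    · show d s ≤ 2 ^ (La s + K s)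
      linarith
    · show _ ≤ (2 : ℤ) ^ (La s + K s)
      linarith

theorem cL_E (X : C(UnitAddCircle, ℂ)) (s : ℕ) (n : ℤ) :
    cL n (X * E s) = (K s : ℂ)⁻¹ * ∑ k ∈ Finset.Ico (La s) (La s + K s), cL (n - 2 ^ k) X := by
  unfold E
  rw [mul_smul_comm, map_smul, smul_eq_mul, Finset.mul_sum, map_sum]
  congr 1
  exact Finset.sum_congr rfl fun k _ => cL_mul X _ n

theorem star_four (n : ℤ) : star (fourier n : C(UnitAddCircle, ℂ)) = fourier (-n) := by
  ext t
  rw [fourier_neg]
  rfl

theorem cL_Es (X : C(UnitAddCircle, ℂ)) (s : ℕ) (n : ℤ) :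
    cL n (X * star (E s)) =
      (K s : ℂ)⁻¹ * ∑ k ∈ Finset.Ico (La s) (La s + K s), cL (n + 2 ^ k) X := by
  unfold E
  rw [star_smul, star_sum, mul_smul_comm, map_smul, smul_eq_mul, Finset.mul_sum, map_sum]
  have e1 : star ((K s : ℂ)⁻¹) = (K s : ℂ)⁻¹ := by simp
  rw [e1]
  congr 1
  refine Finset.sum_congr rfl fun k _ => ?_
  rw [star_four, cL_mul X _ n, sub_neg_eq_add]

/-! ### Sizes -/

theorem E_le (s : ℕ) (t : UnitAddCircle) : ‖E s t‖ ≤ 1 := by
  have h1 : E s t = (K s : ℂ)⁻¹ * ∑ k ∈ Finset.Ico (La s) (La s + K s), fourier (2 ^ k) t := by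
    unfold E
    rw [ContinuousMap.smul_apply, ContinuousMap.sum_apply, smul_eq_mul]
  have h2 : ‖∑ k ∈ Finset.Ico (La s) (La s + K s), fourier (2 ^ k) t‖ ≤ K s := by
    refine (norm_sum_le _ _).trans ?_
    have : ∀ k ∈ Finset.Ico (La s) (La s + K s), ‖fourier (2 ^ k) t‖ ≤ (1 : ℝ) :=
      fun k _ => (Circle.norm_coe _).le
    refine (Finset.sum_le_card_nsmul _ _ 1 this).trans ?_
    simp
  have h3 : (0 : ℝ) < K s := Nat.cast_pos.2 (K_pos s)
  rw [h1, norm_mul, norm_inv, Complex.norm_natCast, inv_mul_le_iff₀ h3, mul_one]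
  exact h2

theorem G_apply (s : ℕ) (t : UnitAddCircle) : G s t = (((1 - ‖P s t‖ ^ 2) / 2 : ℝ) : ℂ) := by
  have h1 : G s t = (2 : ℂ)⁻¹ * (1 - P s t * (starRingEnd ℂ) (P s t)) := rfl
  rw [h1, Complex.mul_conj, Complex.normSq_eq_norm_sq]
  push_cast
  ring

theorem P_le (s : ℕ) (t : UnitAddCircle) : ‖P s t‖ ≤ 1 := by
  induction s with
  | zero =>
    show ‖(0 : ℂ)‖ ≤ 1
    simp
  | succ s ih =>
    have h1 : P (s + 1) t = P s t + G s t * E s t := rfl
    have h2 : ‖G s t‖ = (1 - ‖P s t‖ ^ 2) / 2 := by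
      rw [G_apply, Complex.norm_real, Real.norm_eq_abs, abs_of_nonneg]
      nlinarith [norm_nonneg (P s t)]
    rw [h1]
    refine (norm_add_le _ _).trans ?_
    rw [norm_mul, h2]
    have h3 := E_le s t
    have h4 : 0 ≤ (1 - ‖P s t‖ ^ 2) / 2 := by nlinarith [norm_nonneg (P s t)]
    nlinarith [sq_nonneg (1 - ‖P s t‖), norm_nonneg (P s t)]

theorem G_le (s : ℕ) (t : UnitAddCircle) : ‖G s t‖ ≤ 1 / 2 := by
  rw [G_apply, Complex.norm_real, Real.norm_eq_abs, abs_of_nonneg]
  · nlinarith [norm_nonneg (P s t)]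
  · nlinarith [norm_nonneg (P s t), P_le s t]

theorem star_G (s : ℕ) : star (G s) = G s := by
  unfold G
  rw [star_smul, star_sub, star_mul, star_star, star_one]
  congr 1
  simp

/-! ### The mean square -/

theorem mean (s : ℕ) : ‖cL 0 (P s * star (P s))‖ ≤ (1 - (1 / 2) ^ s) / 64 := by
  induction s with
  | zero =>
    have : P 0 * star (P 0) = 0 := by
      show (0 : C(UnitAddCircle, ℂ)) * _ = 0
      rw [zero_mul]
    rw [this, map_zero]
    simp
  | succ s ih =>
    have hG := G_mem (P_mem s)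
    have hdd := hd s
    have hd0 := d_nonneg s
    have hpos : (0 : ℤ) < 2 ^ La s := by positivity
    have e1 : P (s + 1) * star (P (s + 1)) =
        P s * star (P s) + (G s * P s) * star (E s) + (G s * star (P s)) * E s +
          (G s * G s * E s) * star (E s) := by
      rw [P_succ, star_add, star_mul, star_G]
      ring
    have z1 : cL 0 ((G s * P s) * star (E s)) = 0 := by
      rw [cL_Es, Finset.sum_eq_zero, mul_zero]
      intro k hk
      rw [Finset.mem_Ico] at hk
      refine TP_coeff (TP_mul hG (P_mem s)) ?_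
      rw [zero_add, abs_of_pos (by positivity)]
      linarith [pow_le hk.1]
    have z2 : cL 0 ((G s * star (P s)) * E s) = 0 := by
      rw [cL_E, Finset.sum_eq_zero, mul_zero]
      intro k hk
      rw [Finset.mem_Ico] at hk
      refine TP_coeff (TP_mul hG (TP_star (P_mem s))) ?_
      rw [zero_sub, abs_neg, abs_of_pos (by positivity)]
      linarith [pow_le hk.1]
    have z3 : cL 0 ((G s * G s * E s) * star (E s)) = (K s : ℂ)⁻¹ * cL 0 (G s * G s) := by
      rw [cL_Es]
      have : ∀ l ∈ Finset.Ico (La s) (La s + K s),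
          cL (0 + 2 ^ l) (G s * G s * E s) = (K s : ℂ)⁻¹ * cL 0 (G s * G s) := by
        intro l hl
        rw [cL_E, Finset.sum_eq_single_of_mem l hl]
        · congr 2
          ring_nf
        · intro k hk hkl
          rw [Finset.mem_Ico] at hk hl
          refine TP_coeff (TP_mul hG hG) ?_
          have := sep hk.1 hl.1 hkl
          rw [zero_add]
          linarith
      rw [Finset.sum_congr rfl this, Finset.sum_const, Nat.card_Ico, nsmul_eq_mul]
      rw [show La s + K s - La s = K s by omega, mul_inv_cancel_left₀ (Kc s)]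
    have z4 : ‖cL 0 (G s * G s)‖ ≤ 1 / 4 := by
      refine cL_norm _ _ fun t => ?_
      rw [ContinuousMap.mul_apply, norm_mul]
      nlinarith [G_le s t, norm_nonneg (G s t)]
    rw [e1, map_add, map_add, map_add, z1, z2, z3, add_zero, add_zero]
    refine (norm_add_le _ _).trans ?_
    rw [norm_mul, norm_inv, Complex.norm_natCast]
    have hK : (K s : ℝ) = 32 * 2 ^ s := by
      unfold K
      push_cast
      ring
    have hKi : ((K s : ℝ))⁻¹ = (1 / 2) ^ s / 32 := by
      rw [hK, mul_inv, one_div, inv_pow]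
      ring
    have h6 : ((K s : ℝ))⁻¹ * ‖cL 0 (G s * G s)‖ ≤ (1 / 2) ^ s / 128 := by
      rw [hKi]
      have : (0 : ℝ) ≤ (1 / 2) ^ s := by positivity
      nlinarith
    rw [pow_succ]
    linarith

theorem G_zero (s : ℕ) : 1 / 4 ≤ ‖cL 0 (G s)‖ := by
  have h1 : cL 0 (G s) = (2 : ℂ)⁻¹ * (1 - cL 0 (P s * star (P s))) := by
    unfold G
    rw [map_smul, map_sub, smul_eq_mul]
    congr 2
    rw [one_eq, cL_fourier, if_pos rfl]
  have h2 := mean s
  have h3 : (0 : ℝ) ≤ (1 / 2) ^ s := by positivity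
  have h4 : 1 - ‖cL 0 (P s * star (P s))‖ ≤ ‖1 - cL 0 (P s * star (P s))‖ := by
    have := norm_sub_norm_le (1 : ℂ) (cL 0 (P s * star (P s)))
    rwa [norm_one] at this
  rw [h1, norm_mul, norm_inv, Complex.norm_ofNat]
  linarith

/-- The coefficients at the powers of two. -/
theorem coeff_P {j S : ℕ} (hj : j < S) {k : ℕ} (h1 : La j ≤ k) (h2 : k < La j + K j) :
    cL (2 ^ k) (P S) = (K j : ℂ)⁻¹ * cL 0 (G j) := by
  induction S with
  | zero => omega
  | succ S ih =>
    have hdd := hd S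
    have hd0 := d_nonneg S
    have hpos : (0 : ℤ) < 2 ^ La S := by positivity
    have hG := G_mem (P_mem S)
    rw [P_succ, map_add, cL_E]
    rcases Nat.lt_succ_iff_lt_or_eq.1 hj with hjS | hjS
    · rw [ih hjS, Finset.sum_eq_zero, mul_zero, add_zero]
      intro l hl
      rw [Finset.mem_Ico] at hl
      refine TP_coeff hG ?_
      have h3 : (2 : ℤ) ^ k ≤ d S := by
        have : (2 : ℤ) ^ k ≤ d (j + 1) := pow_le_pow_right₀ (by norm_num) h2.le
        refine this.trans ?_
        have mono : ∀ a, d a ≤ d (a + 1) := by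
          intro a
          have h5 : (2 : ℤ) ^ La a ≤ 2 ^ (La a + K a) := pow_le (by omega)
          have h6 := hd a
          have h7 := d_nonneg a
          show d a ≤ 2 ^ (La a + K a)
          linarith
        exact monotone_nat_of_le_succ mono hjS
      have h4 : (2 : ℤ) ^ La S ≤ 2 ^ l := pow_le hl.1
      rw [abs_sub_comm]
      refine lt_of_lt_of_le ?_ (le_abs_self _)
      linarith
    · subst hjS
      have h3 : cL (2 ^ k) (P j) = 0 := by
        refine TP_coeff (P_mem j) ?_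
        rw [abs_of_pos (by positivity)]
        have := pow_le h1
        linarith
      rw [h3, zero_add, Finset.sum_eq_single_of_mem k (Finset.mem_Ico.2 ⟨h1, h2⟩), sub_self]
      intro l hl hlk
      rw [Finset.mem_Ico] at hl
      refine TP_coeff hG ?_
      have := sep hl.1 h1 hlk
      linarith

/-! ### The sequence `r` -/

theorem La_lt (s : ℕ) : La s + 13 < La (s + 1) := by
  have := K_pos s
  show La s + 13 < La s + K s + 13
  omega

theorem La_strict : StrictMono La := strictMono_nat_of_lt_succ fun s => by have := La_lt s; omega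

/-- the block of `k` -/
def blk (k : ℕ) : ℕ := Nat.findGreatest (fun s => La s ≤ k) k

theorem blk_le (k : ℕ) : La (blk k) ≤ k :=
  Nat.findGreatest_spec (P := fun s => La s ≤ k) (Nat.zero_le k) (Nat.zero_le k)

theorem le_blk {s k : ℕ} (h : La s ≤ k) : s ≤ blk k :=
  Nat.le_findGreatest ((La_strict.le_apply).trans h) h

theorem lt_blk (k : ℕ) : k < La (blk k + 1) := by
  by_contra h
  have := le_blk (not_lt.1 h)
  omega

theorem blk_lt {s k : ℕ} (h : k < La s) : blk k < s := by
  by_contra h1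
  have := (La_strict.monotone (not_lt.1 h1)).trans (blk_le k)
  omega

/-- the sequence -/
noncomputable def r (k : ℕ) : ℝ := (2 : ℝ) ^ ((La (blk k) : ℤ) - 12) * (2 - 1 / ((k : ℝ) + 1))

theorem fac_lt (k : ℕ) : 1 ≤ 2 - 1 / ((k : ℝ) + 1) ∧ 2 - 1 / ((k : ℝ) + 1) < 2 := by
  have h1 : (0 : ℝ) < (k : ℝ) + 1 := by positivity
  have h2 : 1 / ((k : ℝ) + 1) ≤ 1 := by
    rw [div_le_one h1]
    linarith [(Nat.cast_nonneg k : (0 : ℝ) ≤ k)]
  have h3 : 0 < 1 / ((k : ℝ) + 1) := by positivity
  constructor <;> linarith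

theorem zp_pos (n : ℤ) : (0 : ℝ) < 2 ^ n := zpow_pos (by norm_num) n

theorem zp_succ (n : ℤ) : (2 : ℝ) ^ n * 2 = 2 ^ (n + 1) := by
  rw [zpow_add_one₀ (by norm_num : (2 : ℝ) ≠ 0)]

theorem zp_le {m n : ℤ} (h : m ≤ n) : (2 : ℝ) ^ m ≤ 2 ^ n :=
  zpow_le_zpow_right₀ (by norm_num) h

theorem r_lt (k : ℕ) : r k < (2 : ℝ) ^ ((La (blk k) : ℤ) - 11) := by
  have h1 : (2 : ℝ) ^ ((La (blk k) : ℤ) - 11) = 2 ^ ((La (blk k) : ℤ) - 12) * 2 := by
    rw [zp_succ]
    congr 1
    ring
  rw [h1]
  exact mul_lt_mul_of_pos_left (fac_lt k).2 (zp_pos _)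

theorem le_r (k : ℕ) : (2 : ℝ) ^ ((La (blk k) : ℤ) - 12) ≤ r k :=
  le_mul_of_one_le_right (zp_pos _).le (fac_lt k).1

theorem r_strict : StrictMono r := by
  refine strictMono_nat_of_lt_succ fun k => ?_
  rcases lt_or_ge (k + 1) (La (blk k + 1)) with h | h
  · have e1 : blk (k + 1) = blk k := by
      have h1 : blk (k + 1) < blk k + 1 := blk_lt h
      have h2 : blk k ≤ blk (k + 1) := le_blk ((blk_le k).trans (Nat.le_succ k))
      omega
    unfold r
    rw [e1]
    refine mul_lt_mul_of_pos_left ?_ (zp_pos _)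
    have h1 : (0 : ℝ) < (k : ℝ) + 1 := by positivity
    have h2 : 1 / (((k + 1 : ℕ) : ℝ) + 1) < 1 / ((k : ℝ) + 1) := by
      apply one_div_lt_one_div_of_lt h1
      push_cast
      linarith
    linarith
  · refine (r_lt k).trans_le (le_trans (zp_le ?_) (le_r (k + 1)))
    have h1 := La_strict.monotone (le_blk h)
    have h2 := La_lt (blk k)
    omega

theorem admissible : Admissible r := by
  refine ⟨r_strict, fun k => ⟨?_, ?_⟩, ?_⟩
  · exact (zp_pos _).trans_le (le_r k)
  · refine (r_lt k).trans_le (zp_le ?_)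
    have := blk_le k
    omega
  · refine tendsto_atTop_atTop_of_monotone r_strict.monotone fun b => ?_
    obtain ⟨n, hn⟩ := pow_unbounded_of_one_lt b (show (1 : ℝ) < 2 by norm_num)
    refine ⟨La (n + 12), ?_⟩
    have h1 : n + 12 ≤ blk (La (n + 12)) := le_blk le_rfl
    have h2 : n + 12 ≤ La (blk (La (n + 12))) := h1.trans La_strict.le_apply
    refine hn.le.trans (le_trans ?_ (le_r _))
    rw [← zpow_natCast]
    exact zp_le (by omega)

theorem lam_eq (s : ℕ) : lam r s = La s := by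
  induction s with
  | zero => rfl
  | succ s ih =>
    show sInf {m : ℕ | (2 : ℝ) ^ lam r s ≤ r m} = La (s + 1)
    rw [ih]
    have hmem : (2 : ℝ) ^ La s ≤ r (La (s + 1)) := by
      refine le_trans ?_ (le_r _)
      rw [← zpow_natCast]
      refine zp_le ?_
      have h1 : s + 1 ≤ blk (La (s + 1)) := le_blk le_rfl
      have h2 := La_strict.monotone h1
      have h3 := La_lt s
      omega
    apply le_antisymm
    · exact Nat.sInf_le hmem
    · refine le_csInf ⟨_, hmem⟩ fun m hm => ?_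
      by_contra h
      have h1 : blk m < s + 1 := blk_lt (not_le.1 h)
      have h2 := La_strict.monotone (Nat.lt_succ_iff.1 h1)
      have h3 : r m < (2 : ℝ) ^ La s := by
        refine (r_lt m).trans_le ?_
        rw [← zpow_natCast]
        exact zp_le (by omega)
      exact absurd hm (not_le.2 h3)

theorem d_le_r {s k : ℕ} (h : La s ≤ k) : ((2 * d s : ℤ) : ℝ) ≤ r k := by
  cases s with
  | zero =>
    show ((2 * 0 : ℤ) : ℝ) ≤ r k
    simpa using (admissible.2.1 k).1.le
  | succ s =>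
    refine le_trans ?_ (le_r k)
    show ((2 * 2 ^ (La s + K s) : ℤ) : ℝ) ≤ _
    have e1 : ((2 * 2 ^ (La s + K s) : ℤ) : ℝ) = (2 : ℝ) ^ ((La s + K s + 1 : ℕ) : ℤ) := by
      rw [zpow_natCast]
      push_cast
      ring
    rw [e1]
    refine zp_le ?_
    have h1 := La_strict.monotone (le_blk h)
    have h2 : La (s + 1) = La s + K s + 13 := rfl
    omega

/-! ### The spectrum -/

theorem spec (S : ℕ) : SpectrumIn r (P S) := by
  intro n hn
  rw [coeff_eq]
  show cL n (P S) = 0
  induction S with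
  | zero => exact map_zero _
  | succ S ih =>
    rw [P_succ, map_add, ih, zero_add, cL_E, Finset.sum_eq_zero, mul_zero]
    intro k hk
    rw [Finset.mem_Ico] at hk
    refine TP_coeff (G_mem (P_mem S)) ?_
    by_contra h
    refine hn ⟨k, ?_⟩
    have h1 : ((|n - 2 ^ k| : ℤ) : ℝ) ≤ r k :=
      le_trans (Int.cast_le.2 (not_lt.1 h)) (d_le_r hk.1)
    push_cast at h1
    rw [abs_le] at h1
    constructor <;> linarith [h1.1, h1.2]

theorem block (S j : ℕ) (h : j < S) : 1 / 4 ≤ blockSum r (P S) j := by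
  unfold blockSum
  rw [lam_eq, lam_eq]
  have hsub : Finset.Ico (La j) (La j + K j) ⊆ Finset.Ico (La j) (La (j + 1)) := by
    apply Finset.Ico_subset_Ico_right
    show La j + K j ≤ La j + K j + 13
    omega
  refine le_trans ?_ (Finset.sum_le_sum_of_subset_of_nonneg hsub fun _ _ _ => norm_nonneg _)
  have h1 : ∀ k ∈ Finset.Ico (La j) (La j + K j),
      ‖coeff (P S) (2 ^ k)‖ = (K j : ℝ)⁻¹ * ‖cL 0 (G j)‖ := by
    intro k hk
    rw [Finset.mem_Ico] at hk
    rw [coeff_eq]
    show ‖cL (2 ^ k) (P S)‖ = _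
    rw [coeff_P h hk.1 hk.2, norm_mul, norm_inv, Complex.norm_natCast]
  rw [Finset.sum_congr rfl h1, Finset.sum_const, Nat.card_Ico, nsmul_eq_mul,
    show La j + K j - La j = K j by omega,
    mul_inv_cancel_left₀ (Nat.cast_ne_zero.2 (K_pos j).ne')]
  exact G_zero j

/-- **The block `ℓ²` bound fails.** There is an admissible sequence `r` such that for every `S` some
continuous function with spectrum in `A` and sup norm at most one has its first `S` block sums at
least `1 / 4`; consequently no constant `C` satisfies `Φ(f) ≤ C ‖f‖²` for all `f` with spectrum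
in `A`. -/
theorem result : ∃ r : ℕ → ℝ, Admissible r ∧
    (∀ S : ℕ, ∃ f : C(UnitAddCircle, ℂ), SpectrumIn r f ∧ ‖f‖ ≤ 1 ∧
      ∀ s < S, 1 / 4 ≤ blockSum r f s) ∧
    ∀ C : ℝ, ∃ f : C(UnitAddCircle, ℂ), SpectrumIn r f ∧
      ENNReal.ofReal (C * ‖f‖ ^ 2) < Phi r f := by
  refine ⟨r, admissible, fun S => ⟨P S, spec S, ?_, fun s hs => block S s hs⟩, fun C => ?_⟩
  · rw [ContinuousMap.norm_le _ zero_le_one]
    exact P_le S
  · obtain ⟨S, hS⟩ := exists_nat_gt (16 * |C|)
    refine ⟨P S, spec S, ?_⟩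
    have hn : ‖P S‖ ≤ 1 := by
      rw [ContinuousMap.norm_le _ zero_le_one]
      exact P_le S
    have h1 : ∑ s ∈ Finset.range S, ENNReal.ofReal (blockSum r (P S) s ^ 2) ≤ Phi r (P S) :=
      ENNReal.sum_le_tsum _
    refine lt_of_lt_of_le ?_ h1
    rw [← ENNReal.ofReal_sum_of_nonneg fun _ _ => sq_nonneg _]
    have h2 : (S : ℝ) * (1 / 16) ≤ ∑ s ∈ Finset.range S, blockSum r (P S) s ^ 2 := by
      have : ∀ s ∈ Finset.range S, (1 / 16 : ℝ) ≤ blockSum r (P S) s ^ 2 := by
        intro s hs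
        have := block S s (Finset.mem_range.1 hs)
        nlinarith
      have h3 := Finset.card_nsmul_le_sum _ _ _ this
      rwa [Finset.card_range, nsmul_eq_mul] at h3
    have h3 : C * ‖P S‖ ^ 2 ≤ |C| := by
      have h4 : ‖P S‖ ^ 2 ≤ 1 := pow_le_one₀ (norm_nonneg _) hn
      have h5 := le_abs_self C
      have h6 := abs_nonneg C
      nlinarith [sq_nonneg ‖P S‖]
    have h7 : |C| < (S : ℝ) * (1 / 16) := by linarith
    have h8 := abs_nonneg C
    refine (ENNReal.ofReal_lt_ofReal_iff ?_).2 ?_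
    · linarith
    · linarith

end Pool.Agent.Results.MP_b4ed43_an.BlockSumsUnbounded
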